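import Pool.Agent.U469.RT.Stm

/-!
# Project RT, package SUM (helper750)
-/

set_option autoImplicit false

namespace Pool.Agent.U750.RT.SUM

open Pool.Agent.U469.RT Finset

theorem t_SUM (hTop : S_TOP) (hB : S_SMB) (hT : S_TRM) : S_SUM := by
  intro m
  refine ⟨2 ^ m * (2 * m + 1) * (2 ^ (3 * m + 1) * Real.exp (10 * (3 * m + 1))), by positivity, ?_⟩
  intro ι _ r I
  obtain ⟨Top, h1, h2, h3, h4⟩ := hTop ι (fun i => (r i : ℝ) ^ 2) (3 * m + 1) I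
  obtain ⟨σ, hσ⟩ : ∃ σ : ℝ, σ = ∑ l ∈ I \ Top, (r l : ℝ) ^ 2 := ⟨_, rfl⟩
  have hσ0 : 0 ≤ σ := by rw [hσ]; positivity
  refine ⟨fun S => 2 ^ m * (2 * m + 1) * ∏ i ∈ S \ Top,
    (10 * (3 * m + 1) * (r i : ℝ) ^ 2 / ∑ l ∈ I \ Top, (r l : ℝ) ^ 2), ?_, ?_⟩
  · intro S hS
    rw [mem_powersetCard] at hS
    exact hT ι r m I Top S h1 h3 h4 hS.1 hS.2
  · rw [← mul_sum, ← hσ]
    refine mul_le_mul_of_nonneg_left ?_ (by positivity)
    refine hB ι (fun i => 10 * (3 * m + 1) * (r i : ℝ) ^ 2 / σ) m (3 * m + 1)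
      (10 * (3 * m + 1)) I Top (fun i => by positivity) h1 h2 ?_
    rw [← sum_div, ← mul_sum, ← hσ]
    rcases hσ0.lt_or_eq with h | h
    · rw [mul_div_assoc, div_self h.ne', mul_one]
    · rw [← h]
      simp only [mul_zero, div_zero]
      positivity

end Pool.Agent.U750.RT.SUM
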